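import Pool.Agent.Run7.h350.Stab2
import Pool.Agent.Run7.h350.Concrete2

/-!
Global asymptotic stability of the slowest disperser among `N` competing species, under an
explicit gap condition on the dispersal rates which is independent of the domain and of the
resource function.
-/

open Set Filter Topology
open Run7.h350

namespace Pool.Agent.Results.MP_4fbe7c_an.GapGlobalStability

theorem result {n N : ℕ} (Ω : Set (EuclideanSpace ℝ (Fin n))) (ρ : EuclideanSpace ℝ (Fin n) → ℝ)
    (hΩ : SmoothDomain Ω ρ) (m : EuclideanSpace ℝ (Fin n) → ℝ)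
    (hm : ContinuousOn m (closure Ω)) (hmne : ¬ ∃ c, ∀ x ∈ Ω, m x = c)
    (d : Fin N → ℝ) (i k : Fin N) (hdi : 0 < d i) (hik : d i < d k)
    (hk : ∀ j, j ≠ i → d k ≤ d j)
    (hgap : 2500 * d k * ∑ j ∈ Finset.univ.erase i, (d j - d k) ^ 2 ≤ d i ^ 2 * (d k - d i))
    (θ : EuclideanSpace ℝ (Fin n) → ℝ) (hθ : IsSteady Ω ρ m (d i) θ) :
    IsGAS Ω ρ m d i θ := by
  have hd : ∀ j, 0 < d j := by
    intro j
    by_cases hj : j = i
    · rw [hj]; exact hdi
    · exact lt_of_lt_of_le (hdi.trans hik) (hk j hj)
  have hF : Nonempty (HFun i (Finset.univ.erase i) d) := by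
    refine exists_HFun i (Finset.univ.erase i) (by simp) d hdi (q := (d k - d i) / d i)
      (div_pos (by linarith) hdi) ?_ ?_
    · intro j hj
      exact div_le_div_of_nonneg_right (by linarith [hk j (Finset.ne_of_mem_erase hj)]) hdi.le
    · have hsum : ∑ j ∈ Finset.univ.erase i, ((d j - d i) / d i - (d k - d i) / d i) ^ 2 =
          (∑ j ∈ Finset.univ.erase i, (d j - d k) ^ 2) / d i ^ 2 := by
        rw [Finset.sum_div]
        apply Finset.sum_congr rfl
        intro j _
        field_simp
        ring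
      rw [hsum]
      have h4 : 1 + (d k - d i) / d i = d k / d i := by field_simp; ring
      rw [h4]
      have h5 : 2500 * (d k / d i) * ((∑ j ∈ Finset.univ.erase i, (d j - d k) ^ 2) / d i ^ 2) =
          (2500 * d k * ∑ j ∈ Finset.univ.erase i, (d j - d k) ^ 2) / d i ^ 3 := by
        field_simp
      have h6 : (d k - d i) / d i = (d i ^ 2 * (d k - d i)) / d i ^ 3 := by
        field_simp
      rw [h5, h6]
      exact div_le_div_of_nonneg_right hgap (by positivity)
  obtain ⟨F⟩ := hF
  exact gas_of_HFun hΩ hm hmne hd hθ F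

end Pool.Agent.Results.MP_4fbe7c_an.GapGlobalStability
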